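import Pool.Agent.W2helper93.CX.P
import Pool.Agent.TH709.GG.Main
import Pool.Agent.R782.Bal.Tay

set_option autoImplicit false
set_option linter.unusedSectionVars false

/-!
# Members of the class: total monotone complexes, spheres, colourwise subdivisions, edge subdivisions
-/

namespace Pool.Agent.W2helper93.CX

open Polynomial
open Pool.Agent.W497.FS Pool.Agent.TH709.GG

variable {α : Type*} [DecidableEq α] {H : SimpleGraph α}

theorem Sg.of_GT {e : ℕ} {p : ℤ[X]} (hp : p ∈ GT ⊤ e) : Sg e (aeval (-1 / 2 : ℚ) p) := by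
  obtain ⟨a, ha, ha0⟩ := GT_coeffs hp
  have h1 : aeval (-1 / 2 : ℚ) p =
      ∑ i ∈ Finset.range (e / 2 + 1), (a i : ℚ) * (-1 / 4) ^ i * 0 ^ (e - 2 * i) := by
    rw [ha, map_sum]
    refine Finset.sum_congr rfl fun i _ => ?_
    rw [map_mul, map_mul, map_pow, map_pow, ev_w, ev_y, aeval_C, algebraMap_int_eq, eq_intCast]
  rw [h1]
  constructor
  · intro he
    refine Finset.sum_eq_zero fun i hi => ?_
    rw [Finset.mem_range] at hi
    obtain ⟨k, hk⟩ := he
    rw [zero_pow (by omega), mul_zero]
  · intro l hl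
    rw [Finset.sum_eq_single l]
    · rw [hl, Nat.sub_self, pow_zero, mul_one]
      have h2 : (0 : ℤ) ≤ a l := ha0 l (WithTop.coe_lt_top l)
      have h3 : (0 : ℚ) ≤ a l := by exact_mod_cast h2
      have h4 : (-1 : ℚ) ^ l * ((a l : ℚ) * (-1 / 4) ^ l) = a l * (1 / 4) ^ l := by
        have : ((-1 : ℚ) / 4) ^ l = (-1) ^ l * (1 / 4) ^ l := by rw [← mul_pow]; norm_num
        rw [this]
        have h5 : (-1 : ℚ) ^ l * (-1) ^ l = 1 := by rw [← mul_pow]; norm_num
        linear_combination (a l : ℚ) * (1 / 4) ^ l * h5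
      rw [h4]
      positivity
    · intro i hi hil
      rw [Finset.mem_range] at hi
      rw [zero_pow (by omega), mul_zero]
    · intro h
      exact absurd (Finset.mem_range.2 (by omega)) h

theorem P.of_tm {d : ℕ} {W : Finset α} (h : TM H d W) : P H d W := by
  refine ⟨h.le, fun σ hσ e he => ?_⟩
  have h1 := h.mem σ ∅ (Finset.disjoint_empty_right σ) (by rwa [Finset.union_empty]) e he
  rw [D_empty] at h1
  rw [lam_ev]
  exact Sg.of_GT h1

/-- edge subdivisions -/
theorem subdivide {B : Finset α} {u v m : α} {d : ℕ} {t : α} (h : SubD H B u v m t)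
    (hm : P H (d + 1) (insert m B)) : P H (d + 1) (insert u (insert v B)) := by
  have hmt' : m ≠ t := h.hmt.ne
  have hmW : m ∈ insert m B := Finset.mem_insert_self m B
  have htW : t ∈ insert m B := Finset.mem_insert_of_mem h.ht
  have hcm : ({m} : Finset α) ∈ cl H (insert m B) := singleton_mem_cl hmW
  have hcmt : ({m, t} : Finset α) ∈ cl H (insert m B) := by
    refine insert_mem_cl (singleton_mem_cl htW) hmW (fun z hz => ?_)
    rw [Finset.mem_singleton.1 hz]
    exact h.hmt
  have hlm : P H d (lk H (insert m B) m) := by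
    have := hm.link (e := d) hcm (by rw [Finset.card_singleton])
    rwa [lkF_singleton] at this
  have hut : u ≠ t := fun h' => h.hu (h' ▸ h.ht)
  have hnut : ¬ H.Adj u t := fun h' => ((h.hNu t h.ht).1 h').2 rfl
  have h1 : P H 1 {u, t} := P.of_tm (tm_pair hut hnut)
  refine split h.split hm ?_ ?_
  · -- the link of `u` is the link of `m` with `t` replaced by `v`
    have e1 : (lk H (insert m B) m).image (fun x => if x = t then v else x) =
        lk H (insert u (insert v B)) u := by
      ext x
      rw [Finset.mem_image]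
      constructor
      · rintro ⟨z, hz, rfl⟩
        rw [mem_lk, Finset.mem_insert] at hz
        by_cases hzt : z = t
        · rw [if_pos hzt]
          exact mem_lk.2 ⟨Finset.mem_insert_of_mem (Finset.mem_insert_self v B), h.huv⟩
        · rw [if_neg hzt]
          rcases hz with ⟨hz | hz, hz'⟩
          · rw [hz] at hz'; exact absurd rfl hz'.ne
          · exact mem_lk.2 ⟨Finset.mem_insert_of_mem (Finset.mem_insert_of_mem hz),
              (h.hNu z hz).2 ⟨hz', hzt⟩⟩
      · intro hx
        rw [mem_lk, Finset.mem_insert, Finset.mem_insert] at hx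
        rcases hx with ⟨hx | hx | hx, hx'⟩
        · rw [hx] at hx'; exact absurd rfl hx'.ne
        · exact ⟨t, mem_lk.2 ⟨htW, h.hmt⟩, by rw [if_pos rfl, hx]⟩
        · have := (h.hNu x hx).1 hx'
          exact ⟨x, mem_lk.2 ⟨Finset.mem_insert_of_mem hx, this.1⟩, by rw [if_neg this.2]⟩
    rw [← e1]
    have hB : ∀ z ∈ lk H (insert m B) m, z ∈ B ∧ H.Adj m z := by
      intro z hz
      rw [mem_lk, Finset.mem_insert] at hz
      rcases hz with ⟨hz | hz, hz'⟩
      · rw [hz] at hz'; exact absurd rfl hz'.ne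
      · exact ⟨hz, hz'⟩
    refine hlm.image ?_ ?_
    · intro a ha b hb hab
      have ha' := hB a ha
      have hb' := hB b hb
      simp only at hab
      by_cases hat : a = t <;> by_cases hbt : b = t
      · rw [hat, hbt]
      · rw [if_pos hat, if_neg hbt] at hab
        exact absurd (hab ▸ hb'.1) h.hv
      · rw [if_neg hat, if_pos hbt] at hab
        exact absurd (hab ▸ ha'.1) h.hv
      · rwa [if_neg hat, if_neg hbt] at hab
    · intro a ha b hb
      have ha' := hB a ha
      have hb' := hB b hb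
      by_cases hat : a = t <;> by_cases hbt : b = t
      · rw [hat, hbt]
        simp
      · rw [if_pos hat, if_neg hbt, h.hNv b hb'.1, hat]
        constructor
        · exact fun h2 => Or.inr ⟨hb'.2, h2⟩
        · rintro (h2 | h2)
          · exact absurd h2 hbt
          · exact h2.2
      · rw [if_neg hat, if_pos hbt, H.adj_comm a v, h.hNv a ha'.1, hbt]
        constructor
        · exact fun h2 => Or.inr ⟨ha'.2, h2.symm⟩
        · rintro (h2 | h2)
          · exact absurd h2 hat
          · exact h2.2.symm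
      · rw [if_neg hat, if_neg hbt]
  · -- the link of `v` is the join of `{u, t}` and the link of the edge `mt`
    have e2 : lk H (insert u (insert v B)) v = {u, t} ∪ lkF H (insert m B) {m, t} := by
      ext x
      simp only [mem_lk, Finset.mem_insert, Finset.mem_union, mem_lkF, Finset.mem_singleton,
        forall_eq_or_imp, forall_eq]
      constructor
      · rintro ⟨hx | hx | hx, hx'⟩
        · exact Or.inl (Or.inl hx)
        · rw [hx] at hx'; exact absurd rfl hx'.ne
        · rcases (h.hNv x hx).1 hx' with h2 | h2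
          · exact Or.inl (Or.inr h2)
          · exact Or.inr ⟨Or.inr hx, h2⟩
      · rintro ((hx | hx) | ⟨hx | hx, hx'⟩)
        · exact ⟨Or.inl hx, by rw [hx]; exact h.huv.symm⟩
        · refine ⟨Or.inr (Or.inr (hx ▸ h.ht)), ?_⟩
          rw [hx]
          exact (h.hNv t h.ht).2 (Or.inl rfl)
        · rw [hx] at hx'
          exact absurd rfl hx'.1.ne
        · exact ⟨Or.inr (Or.inr hx), (h.hNv x hx).2 (Or.inr hx')⟩
    rw [e2]
    have hfull : Full H {u, t} (lkF H (insert m B) {m, t}) := by
      intro a ha b hb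
      simp only [mem_lkF, Finset.mem_insert, Finset.mem_singleton, forall_eq_or_imp,
        forall_eq] at ha hb
      rcases hb with ⟨hb | hb, hb1, hb2⟩
      · rw [hb] at hb1; exact absurd rfl hb1.ne
      · rcases ha with ha | ha
        · rw [ha]
          exact (h.hNu b hb).2 ⟨hb1, fun h' => by rw [h'] at hb2; exact hb2.ne rfl⟩
        · rw [ha]; exact hb2
    rcases d with _ | d
    · have := hm.le _ hcmt
      rw [Finset.card_pair hmt'] at this
      omega
    have h3 := P.join hfull h1 (hm.link (e := d) hcmt (by rw [Finset.card_pair hmt']))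
    rwa [add_comm 1 d] at h3

/-! ### homology spheres -/

open Pool.Agent.W907.SG (chiW)
open Pool.Agent.TH652.Above (HSph)
open Pool.Agent.R703.CW (mem_cl_univ card_le_of_hsph flagEul_of_hsph)

theorem lam_odd {d : ℕ} {W σ : Finset α} (hE : Eul H d W) (hσ : σ ∈ cl H W) {e : ℕ}
    (he : e + σ.card = d) (ho : Odd e) : lam H (lkF H W σ) = 0 := by
  have h1 := (hE.lkF hσ).ds (-1 / 2 : ℚ)
  have h2 : (-1 : ℚ) - -1 / 2 = -1 / 2 := by norm_num
  rw [h2, ← lam] at h1
  have h3 : Odd (d + σ.card) := by
    obtain ⟨k, hk⟩ := ho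
    exact ⟨k + σ.card, by omega⟩
  rw [h3.neg_one_pow] at h1
  linarith

theorem P.of_sph {V : Type} [Fintype V] [LinearOrder V] {G : SimpleGraph V} {n : ℕ}
    (hS : HSph n G) (hcd : ∀ T : Finset V, G.IsClique (T : Set V) → ∀ l, T.card + 2 * l = n →
      0 ≤ (-1) ^ l * lam G (lkF G Finset.univ T)) : P G n Finset.univ := by
  classical
  refine ⟨fun σ hσ => card_le_of_hsph hS σ ((mem_cl_univ σ).1 hσ), fun σ hσ e he => ⟨fun ho => ?_,
    fun l hl => hcd σ ((mem_cl_univ σ).1 hσ) l (by omega)⟩⟩
  exact lam_odd (flagEul_of_hsph hS).eul hσ he ho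

open Pool.Agent.R782.Bal in
/-- colourwise barycentric subdivisions -/
theorem P.of_cs {N k : ℕ} {X : Finset (Finset (Fin N))} {col : Fin N → Fin k}
    [Fintype (MF X col)] [LinearOrder (MF X col)]
    (hX : ∀ σ ∈ X, ∀ τ : Finset (Fin N), τ ⊆ σ → τ ∈ X) (a : Fin k → ℕ)
    (hsz : ∀ σ ∈ X, ∀ c, (∀ v ∈ σ, col v = c) → σ.card ≤ 2 * a c) {n : ℕ} (hS : HSph n (cs X col))
    {N' n' : ℕ} (K : Finset (Finset (Fin N'))) (f : MF X col ↪ Fin N') (hn : n' ≤ n + 1)
    (hK : Pool.Agent.Y131.KS.HSph K n')
    (hf : ∀ T : Finset (MF X col), (cs X col).IsClique (T : Set (MF X col)) → T.map f ∈ K)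
    (ha : 2 * ∑ c, a c + k ≤ n + 3) : P (cs X col) n Finset.univ := by
  refine P.of_sph hS fun T hT l hl => ?_
  refine cd_link3 hX a hsz hS K f hn hK hf T hT hl ?_
  have h1 := odd_parity (X := X) (col := col) T
  have h2 := odd_le (X := X) (col := col) T
  rcases Nat.lt_or_ge (∑ c, tcol T c % 2) k with h3 | h3
  · omega
  · omega

end Pool.Agent.W2helper93.CX
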