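import Pool.Agent.W2helper93.CX.Base
import Pool.Agent.N13.PL.All

set_option autoImplicit false
set_option linter.unusedSectionVars false

/-!
# The class `Kls` and Coxeter weights
-/

namespace Pool.Agent.W2helper93.CX

open Pool.Agent.W497.FS Pool.Agent.TH709.GG
open Pool.Agent.W907.SG (chiW L2Van)
open Pool.Agent.TH652.Above (HSph)

/-- homology spheres whose links satisfy the vanishing above the middle -/
theorem P.of_singer {V : Type} [Fintype V] [LinearOrder V] {G : SimpleGraph V} {n : ℕ}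
    (hS : HSph n G) (h : ∀ T A : Finset V, G.IsClique (T : Set V) →
      (∀ v, v ∈ A ↔ ∀ u ∈ T, G.Adj v u) → Even (n - T.card) → ∀ i : ℕ, n < 2 * i + T.card →
        L2Van (G.induce (A : Set V)) i) : P G n Finset.univ := by
  classical
  refine P.of_sph hS fun T hT l hl => ?_
  have hfin : Fintype ↥(Pool.Agent.W907.SM.lk G T) := Fintype.ofFinite _
  have h1 := Pool.Agent.R703.CW.hsph_link hS T hT
  have h3 : n - T.card = 2 * l := by omega
  rw [h3] at h1
  rw [← Pool.Agent.R703.CW.chiW_link T]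
  refine Pool.Agent.TH652.Above.chi_sign _ fun i hi =>
    Pool.Agent.TH652.Above.singer_of_above h1 (fun i hi => ?_) i (by omega)
  have h4 : Pool.Agent.W907.SM.LV (G.induce (Pool.Agent.W907.SM.lk G T)) i := by
    rw [Pool.Agent.N13.EU.lv_fin]
    intro B hB
    refine h T B hT (fun v => ?_) ⟨l, by omega⟩ i (by omega)
    rw [← Finset.mem_coe, hB]
    rfl
  exact h4 _ _

/-- hereditary vanishing -/
theorem P.of_hered {V : Type} [Fintype V] [LinearOrder V] {G : SimpleGraph V} {n : ℕ}
    (hS : HSph n G) (h : Pool.Agent.N13.EU.Hered n G) : P G n Finset.univ :=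
  P.of_singer hS fun T A hT hA _ i hi => h T hT A (fun v hv => (hA v).1 hv) i hi

open scoped Classical in
/-- The class of flag complexes. `Kls d α H W` says that the flag complex on `W` (the cliques of `H` inside `W`), of
rank `d` (dimension `d - 1`), can be built by the following rules. -/
inductive Kls : ℕ → (α : Type) → SimpleGraph α → Finset α → Prop
  /-- order complexes of posets of length `n` which are Gorenstein* over `F_2` and homology spheres over `ℝ`: for
  example the barycentric subdivisions of all regular cell decompositions of generalized homology spheres -/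
  | gor {n : ℕ} {V : Type} [Fintype V] [LinearOrder V] {r : V → V → Prop} {rk : V → Fin n} :
      Pool.Agent.W907.SM.GorStar n r rk → HSph n (Pool.Agent.W907.SM.cmp r) →
      Kls n V (Pool.Agent.W907.SM.cmp r) Finset.univ
  /-- colourwise barycentric subdivisions of a simplicial complex `X` with `k` colours which are homology spheres over
  `ℝ` and subcomplexes of a homology sphere over `F_2` of dimension at most one more, where the simplices with all
  vertices of the colour `c` have at most `2 a c` vertices and `2 ∑ a c + k ≤ n + 3` -/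
  | sub {N k n N' n' : ℕ} {X : Finset (Finset (Fin N))} {col : Fin N → Fin k}
      [Fintype (Pool.Agent.R782.Bal.MF X col)] [LinearOrder (Pool.Agent.R782.Bal.MF X col)]
      (a : Fin k → ℕ) (K : Finset (Finset (Fin N'))) (f : Pool.Agent.R782.Bal.MF X col ↪ Fin N') :
      (∀ σ ∈ X, ∀ τ : Finset (Fin N), τ ⊆ σ → τ ∈ X) →
      (∀ σ ∈ X, ∀ c, (∀ v ∈ σ, col v = c) → σ.card ≤ 2 * a c) → 2 * ∑ c, a c + k ≤ n + 3 →
      HSph n (Pool.Agent.R782.Bal.cs X col) → n' ≤ n + 1 → Pool.Agent.Y131.KS.HSph K n' →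
      (∀ T : Finset (Pool.Agent.R782.Bal.MF X col), (Pool.Agent.R782.Bal.cs X col).IsClique
        (T : Set (Pool.Agent.R782.Bal.MF X col)) → T.map f ∈ K) →
      Kls n (Pool.Agent.R782.Bal.MF X col) (Pool.Agent.R782.Bal.cs X col) Finset.univ
  /-- homology spheres over `ℝ` of dimension at most three -/
  | low {n : ℕ} {V : Type} [Fintype V] [LinearOrder V] {G : SimpleGraph V} : n ≤ 4 → HSph n G →
      Kls n V G Finset.univ
  /-- homology spheres over `ℝ` such that for every simplex `T` with `n - |T|` even (`T = ∅` included) the reduced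
  `ℓ²`-homology of the right-angled Coxeter group of the link of `T` vanishes above the middle dimension -/
  | singer {n : ℕ} {V : Type} [Fintype V] [LinearOrder V] {G : SimpleGraph V} : HSph n G →
      (∀ T A : Finset V, G.IsClique (T : Set V) → (∀ v, v ∈ A ↔ ∀ u ∈ T, G.Adj v u) →
        Even (n - T.card) → ∀ i : ℕ, n < 2 * i + T.card → L2Van (G.induce (A : Set V)) i) →
      Kls n V G Finset.univ
  /-- the class `Cls` -/
  | cls {d : ℕ} {α : Type} {H : SimpleGraph α} {W : Finset α} : Cls d α H W → Kls d α H W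
  /-- isomorphic copies -/
  | iso {d : ℕ} {α β : Type} {H : SimpleGraph α} {K : SimpleGraph β} {W : Finset α} (f : α → β) :
      Kls d α H W → Set.InjOn f W → (∀ a ∈ W, ∀ b ∈ W, H.Adj a b ↔ K.Adj (f a) (f b)) →
      Kls d β K (W.image f)
  /-- links of faces -/
  | link {d : ℕ} {α : Type} {H : SimpleGraph α} {W σ : Finset α} :
      Kls (d + σ.card) α H W → σ ∈ cl H W → Kls d α H (lkF H W σ)
  /-- joins -/
  | join {d e : ℕ} {α : Type} {H : SimpleGraph α} {A B : Finset α} :
      Kls d α H A → Kls e α H B → (∀ a ∈ A, ∀ b ∈ B, H.Adj a b) → Kls (d + e) α H (A ∪ B)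
  /-- gluing two complexes after removing from each of them a vertex, along the links of the two
  vertices: no edge joins `A \ B` to `B \ A`, the vertex `c` is joined exactly to `A ∩ B`, and the
  complexes on `A ∪ {c}` and `B ∪ {c}` are in the class -/
  | glue {d : ℕ} {α : Type} {H : SimpleGraph α} {A B : Finset α} {c : α} :
      c ∉ A ∪ B → (∀ x ∈ A ∪ B, H.Adj c x ↔ x ∈ A ∧ x ∈ B) →
      (∀ a ∈ A, ∀ b ∈ B, H.Adj a b → a ∈ B ∨ b ∈ A) →
      Kls d α H (insert c A) → Kls d α H (insert c B) → Kls d α H (A ∪ B)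
  /-- inverse edge contractions: the edge `uv` of the complex on `B ∪ {u, v}` lies in no induced
  4-cycle, its contraction to the vertex `m` gives the complex on `B ∪ {m}`, which is in the class,
  and the links of `u` and `v` are in the class -/
  | split {d : ℕ} {α : Type} {H : SimpleGraph α} {B : Finset α} {u v m : α} :
      u ∉ B → v ∉ B → m ∉ B → H.Adj u v → (∀ x ∈ B, H.Adj m x ↔ H.Adj u x ∨ H.Adj v x) →
      (∀ x ∈ B, ∀ z ∈ B, H.Adj u x → ¬ H.Adj v x → H.Adj v z → ¬ H.Adj u z → ¬ H.Adj x z) →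
      Kls (d + 1) α H (insert m B) → Kls d α H (lk H (insert u (insert v B)) u) →
      Kls d α H (lk H (insert u (insert v B)) v) → Kls (d + 1) α H (insert u (insert v B))
  /-- edge subdivisions: the edge `mt` of the complex on `B ∪ {m}` is subdivided by the vertex `v`;
  the vertex `m` of the new complex is called `u` -/
  | subdivide {d : ℕ} {α : Type} {H : SimpleGraph α} {B : Finset α} {u v m t : α} :
      u ∉ B → v ∉ B → m ∉ B → t ∈ B → H.Adj m t → H.Adj u v →
      (∀ x ∈ B, H.Adj u x ↔ H.Adj m x ∧ x ≠ t) →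
      (∀ x ∈ B, H.Adj v x ↔ x = t ∨ (H.Adj m x ∧ H.Adj t x)) →
      Kls d α H (insert m B) → Kls d α H (insert u (insert v B))

open scoped Classical in
theorem Kls.p {d : ℕ} {α : Type} {H : SimpleGraph α} {W : Finset α} (h : Kls d α H W) :
    P H d W := by
  induction h with
  | @gor n V _ _ r rk hG hS =>
    exact P.of_hered hS (Pool.Agent.N13.EU.hered_AM (Pool.Agent.TH652.Above.AM.base _
      ⟨inferInstance, inferInstance, r, rk, hG, rfl⟩))
  | sub a K f hX hsz ha hS hn hK hf => exact P.of_cs hX a hsz hS K f hn hK hf ha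
  | low hn hS => exact P.of_hered hS (Pool.Agent.N13.PL.hered_four
      Pool.Agent.N13.PL.three hn hS)
  | singer hS h => exact P.of_singer hS h
  | cls h => exact P.of_tm h.tm0
  | iso f _ hf hadj ih => exact ih.image hf hadj
  | link _ hσ ih => exact ih.link hσ rfl
  | join _ _ hAB ih1 ih2 => exact P.join hAB ih1 ih2
  | glue hc hN hAB _ _ ih1 ih2 => exact CX.glue ⟨hc, hN, hAB⟩ ih1 ih2
  | split hu hv hm huv hN h4 _ _ _ ih1 ih2 ih3 =>
    exact CX.split ⟨hu, hv, hm, huv, hN, h4⟩ ih1 ih2 ih3
  | @subdivide d α H B u v m t hu hv hm ht hmt huv hNu hNv _ ih =>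
    rcases d with _ | d
    · have h1 : ({m} : Finset α) ∈ cl H (insert m B) :=
        singleton_mem_cl (Finset.mem_insert_self m B)
      have h2 := ih.le _ h1
      rw [Finset.card_singleton] at h2
      omega
    · exact CX.subdivide ⟨hu, hv, hm, huv, ht, hmt, hNu, hNv⟩ ih

/-- the Charney–Davis inequality -/
theorem P.cd {α : Type*} [DecidableEq α] {H : SimpleGraph α} {m : ℕ} {W : Finset α}
    (h : P H (2 * m) W) : 0 ≤ (-1) ^ m * lam H W := by
  have h1 := (h.mem ∅ Pool.Agent.W497.FS.empty_mem_cl (2 * m) (by simp)).2 m rfl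
  rwa [lkF_empty] at h1

/-- **Coxeter weights** -/
theorem P.weighted {α : Type} [DecidableEq α] {H : SimpleGraph α} {m : ℕ} {W : Finset α}
    (h : P H (2 * m) W) (w : Finset α → ℕ) (hw : ∀ e ∈ cl H W, e.card = 2 → 2 ≤ w e)
    (N : Finset α → ℚ) (h0 : N ∅ = 1) (h1 : ∀ v, {v} ∈ cl H W → N {v} = 2)
    (h2 : ∀ e ∈ cl H W, e.card = 2 → N e = 2 * w e)
    (hmul : ∀ A B : Finset α, Disjoint A B → A ∪ B ∈ cl H W →
      (∀ a ∈ A, ∀ b ∈ B, w {a, b} = 2) → N (A ∪ B) = N A * N B)
    (hsign : ∀ T ∈ cl H W, 3 ≤ T.card →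
      (∀ A ⊆ T, A.Nonempty → A ≠ T → ∃ a ∈ A, ∃ b ∈ T, b ∉ A ∧ w {a, b} ≠ 2) →
      (Odd T.card → ∑ U ∈ T.powerset, (-1 / 2) ^ (T.card - U.card) / N U = 0) ∧
      ∀ j, T.card = 2 * j →
        0 ≤ (-1) ^ j * ∑ U ∈ T.powerset, (-1 / 2) ^ (T.card - U.card) / N U) :
    (-1) ^ m * lam H W ≤ (-1) ^ m * ∑ σ ∈ cl H W, (-1) ^ σ.card / N σ :=
  Pool.Agent.R703.CW.ge_ra m W h.le w hw N h0 h1 h2 hmul hsign fun T hT _ _ j l hj hl =>
    (h.mem T hT (2 * l) (by omega)).2 l rfl

end Pool.Agent.W2helper93.CX
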