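import Pool.Agent.TH709.GG.Split
import Pool.Agent.W497.FS.Thms

set_option autoImplicit false
set_option linter.unusedSectionVars false

/-!
# Flag complexes all of whose links satisfy the Charney–Davis inequality

Closure under links, joins, gluing, vertex splitting and edge subdivision.
-/

namespace Pool.Agent.W2helper93.CX

open Polynomial
open Pool.Agent.W497.FS Pool.Agent.TH709.GG

/-! ### the sign condition -/

/-- the sign condition for the Charney–Davis quantity `x` of a complex of rank `e` -/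
def Sg (e : ℕ) (x : ℚ) : Prop := (Odd e → x = 0) ∧ ∀ l, e = 2 * l → 0 ≤ (-1) ^ l * x

theorem Sg.add {e : ℕ} {x y : ℚ} (hx : Sg e x) (hy : Sg e y) : Sg e (x + y) := by
  refine ⟨fun h => by rw [hx.1 h, hy.1 h, add_zero], fun l hl => ?_⟩
  rw [mul_add]
  exact add_nonneg (hx.2 l hl) (hy.2 l hl)

theorem Sg.zero (e : ℕ) : Sg e 0 := ⟨fun _ => rfl, fun l _ => by rw [mul_zero]⟩

theorem Sg.mul {e f : ℕ} {x y : ℚ} (hx : Sg e x) (hy : Sg f y) : Sg (e + f) (x * y) := by
  constructor
  · intro h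
    rcases Nat.even_or_odd e with he | he
    · have hf : Odd f := by
        rcases Nat.even_or_odd f with hf | hf
        · exact absurd h (Nat.not_odd_iff_even.2 (he.add hf))
        · exact hf
      rw [hy.1 hf, mul_zero]
    · rw [hx.1 he, zero_mul]
  · intro l hl
    rcases Nat.even_or_odd e with ⟨i, hi⟩ | he
    · obtain ⟨j, hj⟩ : ∃ j, f = 2 * j := ⟨l - i, by omega⟩
      have h1 := hx.2 i (by omega)
      have h2 := hy.2 j hj
      have h3 : l = i + j := by omega
      have h4 : (-1 : ℚ) ^ l * (x * y) = ((-1) ^ i * x) * ((-1) ^ j * y) := by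
        rw [h3, pow_add]; ring
      rw [h4]
      exact mul_nonneg h1 h2
    · rw [hx.1 he, zero_mul, mul_zero]

theorem Sg.quarter {e : ℕ} {x : ℚ} (hx : Sg e x) : Sg (e + 2) (-1 / 4 * x) := by
  constructor
  · intro h
    have he : Odd e := by
      rcases Nat.even_or_odd e with he | he
      · exact absurd h (Nat.not_odd_iff_even.2 (he.add even_two))
      · exact he
    rw [hx.1 he, mul_zero]
  · intro l hl
    obtain ⟨j, hj⟩ : ∃ j, l = j + 1 := ⟨l - 1, by omega⟩
    have h1 := hx.2 j (by omega)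
    have h4 : (-1 : ℚ) ^ l * (-1 / 4 * x) = 1 / 4 * ((-1) ^ j * x) := by
      rw [hj, pow_succ]; ring
    rw [h4]
    exact mul_nonneg (by norm_num) h1

variable {α : Type*} [DecidableEq α] {H : SimpleGraph α}

theorem lam_ev (W : Finset α) : lam H W = aeval (-1 / 2 : ℚ) (FP H W) := by
  rw [lam, fe, FP, map_sum]
  exact Finset.sum_congr rfl fun σ _ => by rw [map_pow, aeval_X]

theorem ev_y : aeval (-1 / 2 : ℚ) (y : ℤ[X]) = 0 := by
  rw [y, map_add, map_mul, aeval_X, map_one, map_ofNat]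
  norm_num

theorem ev_w : aeval (-1 / 2 : ℚ) (w : ℤ[X]) = -1 / 4 := by
  rw [w, map_mul, map_add, aeval_X, map_one]
  norm_num

/-- the flag complex on `W`, of rank `d`: all the links satisfy the Charney–Davis inequality -/
structure P (H : SimpleGraph α) (d : ℕ) (W : Finset α) : Prop where
  le : ∀ σ ∈ cl H W, σ.card ≤ d
  mem : ∀ σ ∈ cl H W, ∀ e, e + σ.card = d → Sg e (lam H (lkF H W σ))

theorem P.link {d e : ℕ} {W ρ : Finset α} (h : P H d W) (hρ : ρ ∈ cl H W)
    (he : e + ρ.card = d) : P H e (lkF H W ρ) := by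
  constructor
  · intro σ hσ
    have h1 := h.le _ (union_mem_cl hρ hσ)
    rw [Finset.card_union_of_disjoint (disjoint_of_mem_cl_lkF hσ)] at h1
    omega
  · intro σ hσ e' he'
    rw [lkF_lkF]
    refine h.mem _ (union_mem_cl hρ hσ) e' ?_
    rw [Finset.card_union_of_disjoint (disjoint_of_mem_cl_lkF hσ)]
    omega

theorem P.join {d₁ d₂ : ℕ} {A B : Finset α} (hAB : Full H A B) (hA : P H d₁ A)
    (hB : P H d₂ B) : P H (d₁ + d₂) (A ∪ B) := by
  constructor
  · intro σ hσ
    have h1 := hA.le _ (inter_mem_cl (A := A) hσ)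
    have h2 := hB.le _ (inter_mem_cl (A := B) hσ)
    have h3 := card_join hAB (mem_cl.1 hσ).1
    omega
  · intro σ hσ e he
    have h1 := hA.le _ (inter_mem_cl (A := A) hσ)
    have h2 := hB.le _ (inter_mem_cl (A := B) hσ)
    have h3 := card_join hAB (mem_cl.1 hσ).1
    obtain ⟨e₁, he₁⟩ : ∃ e₁, e₁ + (σ ∩ A).card = d₁ := ⟨d₁ - (σ ∩ A).card, by omega⟩
    obtain ⟨e₂, he₂⟩ : ∃ e₂, e₂ + (σ ∩ B).card = d₂ := ⟨d₂ - (σ ∩ B).card, by omega⟩
    have he' : e = e₁ + e₂ := by omega
    rw [he', lkF_join hAB (mem_cl.1 hσ).1, lam_join (hAB.mono (fun x hx => (mem_lkF.1 hx).1)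
      (fun x hx => (mem_lkF.1 hx).1))]
    exact (hA.mem _ (inter_mem_cl hσ) e₁ he₁).mul (hB.mem _ (inter_mem_cl hσ) e₂ he₂)

theorem P.image {β : Type*} [DecidableEq β] {H' : SimpleGraph β} {f : α → β} {d : ℕ} {W : Finset α}
    (h : P H d W) (hf : Set.InjOn f W)
    (hadj : ∀ a ∈ W, ∀ b ∈ W, H.Adj a b ↔ H'.Adj (f a) (f b)) : P H' d (W.image f) := by
  have key : ∀ τ ∈ cl H' (W.image f), ∃ σ ∈ cl H W, τ = σ.image f ∧ σ.card = τ.card := by
    intro τ hτ
    obtain ⟨σ, hσ, rfl⟩ := Finset.subset_image_iff.1 (mem_cl.1 hτ).1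
    have hσ' : σ ⊆ W := hσ
    exact ⟨σ, (cl_image hf hadj hσ').1 hτ, rfl,
      (Finset.card_image_of_injOn (hf.mono (by exact_mod_cast hσ'))).symm⟩
  constructor
  · intro τ hτ
    obtain ⟨σ, hσ, -, hc⟩ := key τ hτ
    rw [← hc]
    exact h.le σ hσ
  · intro τ hτ e he
    obtain ⟨σ, hσ, rfl, hc⟩ := key τ hτ
    have h1 := (mem_cl.1 hσ).1
    have hsub : lkF H W σ ⊆ W := fun x hx => (mem_lkF.1 hx).1
    rw [lkF_image hf hadj h1, lam_ev, FP_image (hf.mono (by exact_mod_cast hsub))
      (fun a ha b hb => hadj a (hsub ha) b (hsub hb)), ← lam_ev]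
    exact h.mem σ hσ e (by omega)

theorem glue_aux {d : ℕ} {A B : Finset α} {c : α} (h : GlueD H A B c)
    (hA : P H d (insert c A)) (hB : P H d (insert c B)) {σ : Finset α} (hσ : σ ∈ cl H A) {e : ℕ}
    (he : e + σ.card = d) : Sg e (lam H (lkF H (A ∪ B) σ)) := by
  have h1 := congrArg (aeval (-1 / 2 : ℚ)) (h.FP_lkF (mem_cl.1 hσ).1)
  rw [map_add, ← lam_ev, ← lam_ev] at h1
  rw [h1]
  refine (hA.mem σ (cl_mono (Finset.subset_insert c A) hσ) e he).add ?_
  split_ifs with hσB
  · rw [map_sub, map_mul, ev_y, zero_mul, sub_zero, ← lam_ev]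
    refine hB.mem σ ?_ e he
    rw [mem_cl] at hσ ⊢
    exact ⟨fun z hz => Finset.mem_insert_of_mem (hσB hz), hσ.2⟩
  · rw [map_zero]
    exact Sg.zero e

theorem glue {d : ℕ} {A B : Finset α} {c : α} (h : GlueD H A B c)
    (hA : P H d (insert c A)) (hB : P H d (insert c B)) : P H d (A ∪ B) := by
  constructor
  · intro σ hσ
    rcases h.cl_cases hσ with h1 | h1
    · exact hA.le σ (cl_mono (Finset.subset_insert c A) h1)
    · exact hB.le σ (cl_mono (Finset.subset_insert c B) h1)
  · intro σ hσ e he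
    rcases h.cl_cases hσ with h1 | h1
    · exact glue_aux h hA hB h1 he
    · rw [Finset.union_comm A B]
      exact glue_aux h.swap hB hA h1 he

theorem P.of_link {d : ℕ} {W σ : Finset α} {a : α} (ha : P H d (lk H W a)) (haσ : a ∉ σ)
    (hcl : insert a σ ∈ cl H W) {e : ℕ} (he : e + σ.card = d) :
    Sg e (lam H (lkF H W (insert a σ))) := by
  have h0 : a ∈ W := (mem_cl.1 hcl).1 (Finset.mem_insert_self a σ)
  have h1 : lkF H (lk H W a) σ = lkF H W (insert a σ) := by
    rw [← lkF_singleton, lkF_lkF, Finset.insert_eq]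
  rw [← h1]
  refine ha.mem σ ?_ e he
  rw [mem_cl] at hcl ⊢
  refine ⟨fun z hz => mem_lk.2 ⟨hcl.1 (Finset.mem_insert_of_mem hz), ?_⟩, fun p hp q hq =>
    hcl.2 p (Finset.mem_insert_of_mem hp) q (Finset.mem_insert_of_mem hq)⟩
  exact hcl.2 a (Finset.mem_insert_self a σ) z (Finset.mem_insert_of_mem hz)
    (fun h => haσ (h ▸ hz))

theorem P.le_link {d : ℕ} {W σ : Finset α} {a : α} (ha : P H d (lk H W a)) (haσ : a ∉ σ)
    (hcl : insert a σ ∈ cl H W) : σ.card ≤ d := by
  refine ha.le σ ?_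
  rw [mem_cl] at hcl ⊢
  refine ⟨fun z hz => mem_lk.2 ⟨hcl.1 (Finset.mem_insert_of_mem hz), ?_⟩, fun p hp q hq =>
    hcl.2 p (Finset.mem_insert_of_mem hp) q (Finset.mem_insert_of_mem hq)⟩
  exact hcl.2 a (Finset.mem_insert_self a σ) z (Finset.mem_insert_of_mem hz)
    (fun h => haσ (h ▸ hz))

variable {B : Finset α} {u v m : α}

/-- splitting -/
theorem split {d : ℕ} (h : SplitD H B u v m) (hm : P H (d + 1) (insert m B))
    (hu : P H d (lk H (insert u (insert v B)) u))
    (hv : P H d (lk H (insert u (insert v B)) v)) : P H (d + 1) (insert u (insert v B)) := by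
  constructor
  · intro σ hσ
    by_cases h1 : u ∈ σ
    · have h2 := hu.le_link (Finset.notMem_erase u σ) (by rwa [Finset.insert_erase h1])
      rw [Finset.card_erase_of_mem h1] at h2
      omega
    · by_cases h1' : v ∈ σ
      · have h2 := hv.le_link (Finset.notMem_erase v σ) (by rwa [Finset.insert_erase h1'])
        rw [Finset.card_erase_of_mem h1'] at h2
        omega
      · exact hm.le σ (cl_mono (Finset.subset_insert m B) (mem_cl_of_notMem (W := B) hσ h1 h1'))
  · intro σ hσ e he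
    by_cases huσ : u ∈ σ
    · have hc := Finset.card_erase_of_mem huσ
      have hpos : 0 < σ.card := Finset.card_pos.2 ⟨u, huσ⟩
      have h2 := hu.of_link (σ := σ.erase u) (e := e) (Finset.notMem_erase u σ)
        (by rwa [Finset.insert_erase huσ]) (by omega)
      rwa [Finset.insert_erase huσ] at h2
    by_cases hvσ : v ∈ σ
    · have hc := Finset.card_erase_of_mem hvσ
      have hpos : 0 < σ.card := Finset.card_pos.2 ⟨v, hvσ⟩
      have h2 := hv.of_link (σ := σ.erase v) (e := e) (Finset.notMem_erase v σ)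
        (by rwa [Finset.insert_erase hvσ]) (by omega)
      rwa [Finset.insert_erase hvσ] at h2
    have hσB : σ ∈ cl H B := mem_cl_of_notMem (W := B) hσ huσ hvσ
    have h1 := congrArg (aeval (-1 / 2 : ℚ)) (h.F1 hσB)
    rw [map_add, ← lam_ev, ← lam_ev] at h1
    rw [h1]
    refine (hm.mem σ (cl_mono (Finset.subset_insert m B) hσB) e he).add ?_
    split_ifs with hin
    · rw [map_mul, ev_w, ← lam_ev]
      obtain ⟨h3, h4⟩ := (allAdj_iff2 (mem_cl.1 hσB).1).2 hin
      have hcl' : insert u (insert v σ) ∈ cl H (insert u (insert v B)) :=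
        insert_mem_cl (insert_mem_cl hσ (Finset.mem_insert_of_mem (Finset.mem_insert_self v B)) h4)
          (Finset.mem_insert_self u _) (allAdj_insert h.huv h3)
      have huv : u ∉ insert v σ := by
        rw [Finset.mem_insert, not_or]
        exact ⟨h.huv.ne, huσ⟩
      have hle := hu.le_link huv hcl'
      rw [Finset.card_insert_of_notMem hvσ] at hle
      obtain ⟨e', rfl⟩ : ∃ e', e = e' + 2 := ⟨e - 2, by omega⟩
      refine (hu.of_link huv hcl' ?_).quarter
      rw [Finset.card_insert_of_notMem hvσ]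
      omega
    · rw [map_zero]
      exact Sg.zero e

end Pool.Agent.W2helper93.CX
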